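import Pool.Agent.SphConj823.Defs

set_option autoImplicit false

namespace Pool.Agent.Results.MP_c6d336_gt.AtLeastThree

open SphereHomeo823

/-- If `n ≥ 1` and every element of `G` other than the identity is a product of exactly `n`
`Homeo(S²)`-conjugates of every element of `G` other than the identity, then `n ≥ 3`.
That is, `N ≥ 3`. -/
theorem result : ∀ n : ℕ, 1 ≤ n → P n → 3 ≤ n :=
  SphereHomeo823.main

end Pool.Agent.Results.MP_c6d336_gt.AtLeastThree
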